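import Pool.Agent.TH234.PH.Orb

/-! # The sum of the exponents of a family of closed orbits -/

open Set MeasureTheory Polynomial Topology Filter intervalIntegral

namespace Pool.Agent.TH234.PH

noncomputable section

variable {P Q : MvPolynomial (Fin 2) ℝ}

/-- twice a sum over `Fin (m + 1)` in terms of neighbours -/
lemma sum_neighbours {m : ℕ} (h : Fin (m + 1) → ℝ) :
    2 * ∑ i, h i = ∑ j : Fin m, (h j.castSucc + h j.succ) + h 0 + h (Fin.last m) := by
  rw [Finset.sum_add_distrib]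
  have h1 := Fin.sum_univ_succ h
  have h2 := Fin.sum_univ_castSucc h
  linarith

/-- the difference quotient of two periodic graphs has mean zero -/
lemma mean_zero {γ₁ γ₂ : ℝ → ℝ × ℝ} {T₁ T₂ : ℝ} {U₁ U₂ σ₁ σ₂ : ℝ → ℝ}
    (h1 : Grf P Q γ₁ T₁ U₁ σ₁) (h2 : Grf P Q γ₂ T₂ U₂ σ₂) (hlt : ∀ θ, U₁ θ < U₂ θ) :
    Continuous (fun θ => (Fr (Ar P Q θ) (Br P Q θ) (U₂ θ) - Fr (Ar P Q θ) (Br P Q θ) (U₁ θ)) /
      (U₂ θ - U₁ θ)) ∧
    ∫ θ in (0:ℝ)..(2 * Real.pi), (Fr (Ar P Q θ) (Br P Q θ) (U₂ θ) -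
      Fr (Ar P Q θ) (Br P Q θ) (U₁ θ)) / (U₂ θ - U₁ θ) = 0 := by
  have hc : Continuous (fun θ => (Fr (Ar P Q θ) (Br P Q θ) (U₂ θ) -
      Fr (Ar P Q θ) (Br P Q θ) (U₁ θ)) / (U₂ θ - U₁ θ)) :=
    ((cont_Fr h2.contU fun θ => (h2.posB θ).ne').sub
      (cont_Fr h1.contU fun θ => (h1.posB θ).ne')).div (h2.contU.sub h1.contU)
      fun θ => (sub_pos.2 (hlt θ)).ne'
  refine ⟨hc, ?_⟩
  have hd : ∀ θ, HasDerivAt (fun θ => Real.log (U₂ θ - U₁ θ))
      ((Fr (Ar P Q θ) (Br P Q θ) (U₂ θ) - Fr (Ar P Q θ) (Br P Q θ) (U₁ θ)) / (U₂ θ - U₁ θ)) θ :=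
    fun θ => ((h2.dU θ).sub (h1.dU θ)).log (sub_pos.2 (hlt θ)).ne'
  rw [integral_eq_sub_of_hasDerivAt (fun θ _ => hd θ) (hc.intervalIntegrable _ _)]
  have e1 := h1.perU 0
  have e2 := h2.perU 0
  rw [zero_add] at e1 e2
  rw [e1, e2, sub_self]

theorem family {n : ℕ} (hray : ∀ θ, RayBound (Ar P Q θ) (Br P Q θ) n) {ι : Type} [Fintype ι]
    [Nonempty ι] (γ : ι → ℝ → ℝ × ℝ) (T : ι → ℝ) (hγ : ∀ i, Clo P Q (γ i) (T i))
    (hne : ∀ i j, i ≠ j → range (γ i) ≠ range (γ j)) (S : Set (ℝ × ℝ))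
    (hS : ∀ θ u₁ u u₂ : ℝ, u₁ ≤ u → u ≤ u₂ →
      (Real.exp u₁ * Real.cos θ, Real.exp u₁ * Real.sin θ) ∈ S →
      (Real.exp u₂ * Real.cos θ, Real.exp u₂ * Real.sin θ) ∈ S →
      (Real.exp u * Real.cos θ, Real.exp u * Real.sin θ) ∈ S)
    (hD : ∀ z ∈ S, 0 < z.1 * ev Q z.1 z.2 - z.2 * ev P z.1 z.2)
    (M : ℝ → ℝ) (hMi : IntervalIntegrable M volume 0 (2 * Real.pi))
    (hM : ∀ θ ∈ Icc 0 (2 * Real.pi), ∀ u : ℝ,
      (Real.exp u * Real.cos θ, Real.exp u * Real.sin θ) ∈ S →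
      |Ph (Ar P Q θ) (Br P Q θ) u| ≤ M θ)
    (hin : ∀ i t, γ i t ∈ S) :
    ∑ i, |expo P Q (γ i) (T i)| ≤ (2 * n + 1) * ∫ θ in (0:ℝ)..(2 * Real.pi), M θ := by
  classical
  have hG : ∀ i, ∃ U σ, Grf P Q (γ i) (T i) U σ := fun i =>
    exists_grf (hγ i) fun t => hD _ (hin i t)
  choose U σ hg using hG
  have hpi : (0:ℝ) ≤ 2 * Real.pi := by positivity
  -- the graphs are disjoint
  have hdis : ∀ i j, i ≠ j → ∀ θ, U i θ ≠ U j θ := by
    intro i j hij θ he
    apply hne i j hij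
    have e1 : γ i (σ i θ) = γ j (σ j θ) := by rw [(hg i).pt, (hg j).pt, he]
    have e2 := shift_eq (P := P) (Q := Q) (hγ i).sol (hγ j).sol e1
    ext z
    constructor
    · rintro ⟨t, rfl⟩
      refine ⟨t - σ i θ + σ j θ, ?_⟩
      rw [← e2, sub_add_cancel]
    · rintro ⟨t, rfl⟩
      refine ⟨t - σ j θ + σ i θ, ?_⟩
      rw [e2, sub_add_cancel]
  have hord : ∀ i j, U i 0 < U j 0 → ∀ θ, U i θ < U j θ := by
    intro i j hij θ
    have hne' : i ≠ j := fun h => by rw [h] at hij; exact lt_irrefl _ hij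
    by_contra hc
    push Not at hc
    have hcc : Continuous fun s => U j s - U i s := (hg j).contU.sub (hg i).contU
    obtain ⟨s, hs⟩ := mem_range_of_exists_le_of_exists_ge (c := 0) hcc
      ⟨θ, by linarith⟩ ⟨0, by linarith⟩
    exact hdis i j hne' s (by linarith)
  have hinj : Function.Injective fun i => U i 0 := by
    intro i j hij
    by_contra h
    exact hdis i j h 0 hij
  obtain ⟨m, hm⟩ : ∃ m, Fintype.card ι = m + 1 :=
    ⟨Fintype.card ι - 1, (Nat.succ_pred_eq_of_pos Fintype.card_pos).symm⟩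
  obtain ⟨e, he⟩ : ∃ e : Fin (m + 1) ≃ ι, StrictMono fun j => U (e j) 0 := by
    let _ : LinearOrder ι := LinearOrder.lift' (fun i => U i 0) hinj
    refine ⟨(monoEquivOfFin ι hm).toEquiv, ?_⟩
    intro a b hab
    exact (monoEquivOfFin ι hm).strictMono hab
  have hp : ∀ θ, StrictMono fun j => U (e j) θ := fun θ a b hab => hord _ _ (he hab) θ
  -- notation
  set Φ : ι → ℝ → ℝ := fun i θ => Ph (Ar P Q θ) (Br P Q θ) (U i θ) with hΦ
  have hΦc : ∀ i, Continuous (Φ i) := fun i => cont_Ph (hg i).contU fun θ => ((hg i).posB θ).ne'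
  set c : Fin m → ℝ → ℝ := fun j θ => (Fr (Ar P Q θ) (Br P Q θ) (U (e j.succ) θ) -
    Fr (Ar P Q θ) (Br P Q θ) (U (e j.castSucc) θ)) / (U (e j.succ) θ - U (e j.castSucc) θ) with hc
  have hcz : ∀ j, Continuous (c j) ∧ ∫ θ in (0:ℝ)..(2 * Real.pi), c j θ = 0 := fun j =>
    mean_zero (hg (e j.castSucc)) (hg (e j.succ)) fun θ => hp θ (Fin.castSucc_lt_succ (i := j))
  have hmemS : ∀ i θ, (Real.exp (U i θ) * Real.cos θ, Real.exp (U i θ) * Real.sin θ) ∈ S := by
    intro i θ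
    rw [← (hg i).pt]
    exact hin _ _
  have hexp : ∀ i, expo P Q (γ i) (T i) = ∫ θ in (0:ℝ)..(2 * Real.pi), Φ i θ := fun i => (hg i).expo
  -- the pointwise bound
  have hpoint : ∀ θ ∈ Icc 0 (2 * Real.pi), ∑ j : Fin m, (|Φ (e j.castSucc) θ - c j θ| +
      |Φ (e j.succ) θ - c j θ|) ≤ 4 * n * M θ := by
    intro θ hθ
    have hbet : ∀ u ∈ Icc (U (e 0) θ) (U (e (Fin.last m)) θ),
        (Real.exp u * Real.cos θ, Real.exp u * Real.sin θ) ∈ S := fun u hu =>
      hS θ _ u _ hu.1 hu.2 (hmemS _ _) (hmemS _ _)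
    have := hray θ m (fun j => U (e j) θ) (hp θ)
      (fun u hu => by
        have h1 := hD _ (hbet u hu)
        intro h2
        rw [eval_Br] at h2
        simp only at h1
        have h3 : Real.exp u * Real.cos θ * ev Q (Real.exp u * Real.cos θ)
            (Real.exp u * Real.sin θ) - Real.exp u * Real.sin θ * ev P (Real.exp u * Real.cos θ)
            (Real.exp u * Real.sin θ) = 0 := by
          linear_combination Real.exp u * h2
        rw [h3] at h1
        exact lt_irrefl _ h1)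
      (M θ) (fun u hu => hM θ hθ u (hbet u hu))
    exact this
  have hint : ∀ i j, IntervalIntegrable (fun θ => |Φ i θ - c j θ|) volume 0 (2 * Real.pi) :=
    fun i j => (((hΦc i).sub (hcz j).1).abs).intervalIntegrable _ _
  have hle : ∀ i j, |expo P Q (γ i) (T i)| ≤ ∫ θ in (0:ℝ)..(2 * Real.pi), |Φ i θ - c j θ| := by
    intro i j
    have h1 : expo P Q (γ i) (T i) = ∫ θ in (0:ℝ)..(2 * Real.pi), (Φ i θ - c j θ) := by
      rw [hexp, intervalIntegral.integral_sub ((hΦc i).intervalIntegrable _ _)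
        ((hcz j).1.intervalIntegrable _ _), (hcz j).2, sub_zero]
    rw [h1]
    exact intervalIntegral.abs_integral_le_integral_abs hpi
  have hends : ∀ i, |expo P Q (γ i) (T i)| ≤ ∫ θ in (0:ℝ)..(2 * Real.pi), M θ := by
    intro i
    rw [hexp]
    refine (intervalIntegral.abs_integral_le_integral_abs hpi).trans ?_
    refine intervalIntegral.integral_mono_on hpi ((hΦc i).abs.intervalIntegrable _ _) hMi ?_
    intro θ hθ
    exact hM θ hθ _ (hmemS i θ)
  have hsum : ∑ j : Fin m, (|expo P Q (γ (e j.castSucc)) (T (e j.castSucc))| +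
      |expo P Q (γ (e j.succ)) (T (e j.succ))|) ≤
      4 * n * ∫ θ in (0:ℝ)..(2 * Real.pi), M θ := by
    calc ∑ j : Fin m, (|expo P Q (γ (e j.castSucc)) (T (e j.castSucc))| +
          |expo P Q (γ (e j.succ)) (T (e j.succ))|)
        ≤ ∑ j : Fin m, ∫ θ in (0:ℝ)..(2 * Real.pi), (|Φ (e j.castSucc) θ - c j θ| +
          |Φ (e j.succ) θ - c j θ|) := by
          refine Finset.sum_le_sum fun j _ => ?_
          rw [intervalIntegral.integral_add (hint _ _) (hint _ _)]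
          exact add_le_add (hle _ _) (hle _ _)
      _ = ∫ θ in (0:ℝ)..(2 * Real.pi), ∑ j : Fin m, (|Φ (e j.castSucc) θ - c j θ| +
          |Φ (e j.succ) θ - c j θ|) := by
          rw [intervalIntegral.integral_finsetSum]
          intro j _
          exact (hint _ _).add (hint _ _)
      _ ≤ ∫ θ in (0:ℝ)..(2 * Real.pi), 4 * n * M θ := by
          refine intervalIntegral.integral_mono_on hpi ?_ (hMi.const_mul _) hpoint
          refine Continuous.intervalIntegrable ?_ _ _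
          refine continuous_finsetSum _ fun j _ => ?_
          exact (((hΦc _).sub (hcz j).1).abs).add (((hΦc _).sub (hcz j).1).abs)
      _ = 4 * n * ∫ θ in (0:ℝ)..(2 * Real.pi), M θ := intervalIntegral.integral_const_mul _ _
  have h2 := sum_neighbours (fun j => |expo P Q (γ (e j)) (T (e j))|)
  have h3 : ∑ j, |expo P Q (γ (e j)) (T (e j))| = ∑ i, |expo P Q (γ i) (T i)| :=
    e.sum_comp (fun i => |expo P Q (γ i) (T i)|)
  rw [h3] at h2
  have h4 := hends (e 0)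
  have h5 := hends (e (Fin.last m))
  linarith

end

end Pool.Agent.TH234.PH
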