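import Pool.Agent.TH234.PH.Ray

/-! # Planar polynomial fields on rays -/

open Set MeasureTheory Polynomial

namespace Pool.Agent.TH234.PH

noncomputable section

/-- the value of a polynomial in two variables -/
def ev (P : MvPolynomial (Fin 2) ℝ) (x y : ℝ) : ℝ := MvPolynomial.eval ![x, y] P

/-- the partial derivatives -/
def ex (P : MvPolynomial (Fin 2) ℝ) (x y : ℝ) : ℝ := ev (MvPolynomial.pderiv 0 P) x y

/-- the partial derivatives -/
def ey (P : MvPolynomial (Fin 2) ℝ) (x y : ℝ) : ℝ := ev (MvPolynomial.pderiv 1 P) x y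

lemma hasDerivAt_ev (P : MvPolynomial (Fin 2) ℝ) {x y : ℝ → ℝ} {x' y' t : ℝ}
    (hx : HasDerivAt x x' t) (hy : HasDerivAt y y' t) :
    HasDerivAt (fun t => ev P (x t) (y t))
      (ex P (x t) (y t) * x' + ey P (x t) (y t) * y') t := by
  induction P using MvPolynomial.induction_on with
  | C a =>
    simp only [ev, ex, ey, MvPolynomial.eval_C, MvPolynomial.pderiv_C, map_zero, zero_mul,
      add_zero]
    exact hasDerivAt_const _ _
  | add p q hp hq =>
    refine ((hp.add hq).congr_deriv ?_).congr_of_eventuallyEq ?_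
    · simp only [ex, ey, ev, map_add]
      ring
    · exact Filter.Eventually.of_forall fun s => by simp only [ev, map_add, Pi.add_apply]
  | mul_X p i hp =>
    have hX : HasDerivAt (fun t => (![x t, y t] : Fin 2 → ℝ) i) ((![x', y'] : Fin 2 → ℝ) i) t := by
      fin_cases i
      · simpa using hx
      · simpa using hy
    refine ((hp.mul hX).congr_deriv ?_).congr_of_eventuallyEq ?_
    · fin_cases i
      · simp [ex, ey, ev, Derivation.leibniz, MvPolynomial.pderiv_X]
        ring
      · simp [ex, ey, ev, Derivation.leibniz, MvPolynomial.pderiv_X]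
        ring
    · exact Filter.Eventually.of_forall fun s => by
        simp only [ev, map_mul, MvPolynomial.eval_X, Pi.mul_apply]

lemma continuous_ev (P : MvPolynomial (Fin 2) ℝ) {x y : ℝ → ℝ} (hx : Continuous x)
    (hy : Continuous y) : Continuous fun t => ev P (x t) (y t) := by
  unfold ev
  have h : Continuous fun t => (![x t, y t] : Fin 2 → ℝ) := by
    refine continuous_pi fun i => ?_
    fin_cases i
    · simpa using hx
    · simpa using hy
  exact (MvPolynomial.continuous_eval P).comp h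

/-- restriction to the line through the origin in the direction `(c, s)` -/
def rp (P : MvPolynomial (Fin 2) ℝ) (c s : ℝ) : ℝ[X] :=
  MvPolynomial.aeval ![C c * X, C s * X] P

lemma eval_rp (P : MvPolynomial (Fin 2) ℝ) (c s r : ℝ) :
    (rp P c s).eval r = ev P (r * c) (r * s) := by
  unfold rp ev
  induction P using MvPolynomial.induction_on with
  | C a => simp
  | add p q hp hq => simp only [map_add, eval_add, hp, hq]
  | mul_X p i hp =>
    rw [map_mul, eval_mul, hp, map_mul]
    congr 1
    rw [MvPolynomial.aeval_X, MvPolynomial.eval_X]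
    fin_cases i
    · change (C c * X : ℝ[X]).eval r = r * c
      rw [eval_mul, eval_C, eval_X]; ring
    · change (C s * X : ℝ[X]).eval r = r * s
      rw [eval_mul, eval_C, eval_X]; ring

lemma natDegree_rp (P : MvPolynomial (Fin 2) ℝ) (c s : ℝ) {n : ℕ} (hP : P.totalDegree ≤ n) :
    (rp P c s).natDegree ≤ n := by
  unfold rp
  rw [MvPolynomial.aeval_def, MvPolynomial.eval₂_eq']
  refine natDegree_sum_le_of_forall_le _ _ fun d hd => ?_
  have h1 : d 0 + d 1 ≤ n := by
    have := MvPolynomial.le_totalDegree hd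
    rw [Finsupp.sum_fintype _ _ (fun _ => rfl), Fin.sum_univ_two] at this
    exact this.trans hP
  rw [Fin.prod_univ_two]
  simp only [Matrix.cons_val_zero, Matrix.cons_val_one, Polynomial.algebraMap_eq]
  refine (natDegree_C_mul_le _ _).trans (natDegree_mul_le.trans ?_)
  have h2 : ∀ (a : ℝ) (k : ℕ), ((C a * X : ℝ[X]) ^ k).natDegree ≤ k := by
    intro a k
    refine natDegree_pow_le.trans ?_
    have : (C a * X : ℝ[X]).natDegree ≤ 1 := (natDegree_C_mul_le _ _).trans natDegree_X_le
    calc k * (C a * X : ℝ[X]).natDegree ≤ k * 1 := Nat.mul_le_mul_left _ this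
      _ = k := mul_one k
  exact (add_le_add (h2 c (d 0)) (h2 s (d 1))).trans h1

lemma eval_derivative_rp (P : MvPolynomial (Fin 2) ℝ) (c s r : ℝ) :
    (derivative (rp P c s)).eval r = ex P (r * c) (r * s) * c + ey P (r * c) (r * s) * s := by
  have h1 := (rp P c s).hasDerivAt r
  have h2 := hasDerivAt_ev P ((hasDerivAt_id r).mul_const c) ((hasDerivAt_id r).mul_const s)
  have h3 : (fun t => ev P (id t * c) (id t * s)) = fun t => (rp P c s).eval t := by
    funext t; rw [eval_rp]; rfl
  rw [h3] at h2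
  have h4 := h1.unique h2
  rw [h4]
  simp

/-- the radial polynomial `(x P + y Q) / r` -/
def Ar (P Q : MvPolynomial (Fin 2) ℝ) (θ : ℝ) : ℝ[X] :=
  C (Real.cos θ) * rp P (Real.cos θ) (Real.sin θ) + C (Real.sin θ) * rp Q (Real.cos θ) (Real.sin θ)

/-- the angular polynomial `(x Q - y P) / r` -/
def Br (P Q : MvPolynomial (Fin 2) ℝ) (θ : ℝ) : ℝ[X] :=
  C (Real.cos θ) * rp Q (Real.cos θ) (Real.sin θ) - C (Real.sin θ) * rp P (Real.cos θ) (Real.sin θ)

lemma natDegree_Ar {P Q : MvPolynomial (Fin 2) ℝ} {n : ℕ} (hP : P.totalDegree ≤ n)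
    (hQ : Q.totalDegree ≤ n) (θ : ℝ) : (Ar P Q θ).natDegree ≤ n :=
  (natDegree_add_le _ _).trans (max_le
    ((natDegree_C_mul_le _ _).trans (natDegree_rp _ _ _ hP))
    ((natDegree_C_mul_le _ _).trans (natDegree_rp _ _ _ hQ)))

lemma natDegree_Br {P Q : MvPolynomial (Fin 2) ℝ} {n : ℕ} (hP : P.totalDegree ≤ n)
    (hQ : Q.totalDegree ≤ n) (θ : ℝ) : (Br P Q θ).natDegree ≤ n :=
  (natDegree_sub_le _ _).trans (max_le
    ((natDegree_C_mul_le _ _).trans (natDegree_rp _ _ _ hQ))
    ((natDegree_C_mul_le _ _).trans (natDegree_rp _ _ _ hP)))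

lemma eval_Ar (P Q : MvPolynomial (Fin 2) ℝ) (θ r : ℝ) : (Ar P Q θ).eval r =
    Real.cos θ * ev P (r * Real.cos θ) (r * Real.sin θ) +
      Real.sin θ * ev Q (r * Real.cos θ) (r * Real.sin θ) := by
  unfold Ar
  simp only [eval_add, eval_mul, eval_C, eval_rp]

lemma eval_Br (P Q : MvPolynomial (Fin 2) ℝ) (θ r : ℝ) : (Br P Q θ).eval r =
    Real.cos θ * ev Q (r * Real.cos θ) (r * Real.sin θ) -
      Real.sin θ * ev P (r * Real.cos θ) (r * Real.sin θ) := by
  unfold Br
  simp only [eval_sub, eval_mul, eval_C, eval_rp]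

lemma eval_dAr (P Q : MvPolynomial (Fin 2) ℝ) (θ r : ℝ) : (derivative (Ar P Q θ)).eval r =
    Real.cos θ * (ex P (r * Real.cos θ) (r * Real.sin θ) * Real.cos θ +
      ey P (r * Real.cos θ) (r * Real.sin θ) * Real.sin θ) +
    Real.sin θ * (ex Q (r * Real.cos θ) (r * Real.sin θ) * Real.cos θ +
      ey Q (r * Real.cos θ) (r * Real.sin θ) * Real.sin θ) := by
  unfold Ar
  simp only [derivative_add, derivative_C_mul, eval_add, eval_mul, eval_C, eval_derivative_rp]

lemma eval_dBr (P Q : MvPolynomial (Fin 2) ℝ) (θ r : ℝ) : (derivative (Br P Q θ)).eval r =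
    Real.cos θ * (ex Q (r * Real.cos θ) (r * Real.sin θ) * Real.cos θ +
      ey Q (r * Real.cos θ) (r * Real.sin θ) * Real.sin θ) -
    Real.sin θ * (ex P (r * Real.cos θ) (r * Real.sin θ) * Real.cos θ +
      ey P (r * Real.cos θ) (r * Real.sin θ) * Real.sin θ) := by
  unfold Br
  simp only [derivative_sub, derivative_C_mul, eval_sub, eval_mul, eval_C, eval_derivative_rp]

/-- the divergence identity on a ray -/
lemma div_identity (P Q : MvPolynomial (Fin 2) ℝ) (θ r : ℝ) :
    let x := r * Real.cos θ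
    let y := r * Real.sin θ
    (ex P x y + ey Q x y) * (Br P Q θ).eval r =
      ((derivative (Ar P Q θ)).eval r * (Br P Q θ).eval r -
        (Ar P Q θ).eval r * (derivative (Br P Q θ)).eval r) +
      (Real.cos θ * (ex Q x y * ev P x y + ey Q x y * ev Q x y) -
        Real.sin θ * (ex P x y * ev P x y + ey P x y * ev Q x y)) := by
  intro x y
  rw [eval_dAr, eval_dBr, eval_Ar, eval_Br]
  have h := Real.sin_sq_add_cos_sq θ
  simp only [x, y]
  set c := Real.cos θ
  set s := Real.sin θ
  set p := ev P (r * c) (r * s)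
  set q := ev Q (r * c) (r * s)
  linear_combination (-(c * q * ex P (r * c) (r * s)) + s * p * ey Q (r * c) (r * s) -
    s * q * ey P (r * c) (r * s) + c * p * ex Q (r * c) (r * s)) * h

end

end Pool.Agent.TH234.PH
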