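import Mathlib

/-! # Counting levels

If every level of a function is attained at most `D` times, then its total variation is at most
`D` times the length of its range. -/

open Set MeasureTheory
open scoped ENNReal

namespace Pool.Agent.TH234.PH

lemma vol_uIoo (a b : ℝ) : volume (uIoo a b) = ENNReal.ofReal |a - b| := by
  rw [uIoo, Real.volume_Ioo]
  congr 1
  rcases le_total a b with h | h
  · rw [max_eq_right h, min_eq_left h, abs_of_nonpos (by linarith)]; ring
  · rw [max_eq_left h, min_eq_right h, abs_of_nonneg (by linarith)]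

/-- The sum of the increments over disjoint intervals is at most the number of times a level is
attained times the length of the range. -/
theorem levels {κ : Type*} [Fintype κ] (x y : κ → ℝ) (hxy : ∀ k, x k < y k)
    (hdisj : ∀ k l, k ≠ l → Disjoint (Ioo (x k) (y k)) (Ioo (x l) (y l))) (φ : ℝ → ℝ)
    (hφ : ∀ k, ContinuousOn φ (Icc (x k) (y k))) {M : ℝ} (hM0 : 0 ≤ M)
    (hM : ∀ k, |φ (x k)| ≤ M ∧ |φ (y k)| ≤ M) (D : ℕ)
    (hroots : ∀ c : ℝ, (∃ k, φ (x k) ≠ c) → ∀ R : Finset ℝ,
      (∀ ξ ∈ R, (∃ k, ξ ∈ Ioo (x k) (y k)) ∧ φ ξ = c) → R.card ≤ D) :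
    ∑ k, |φ (x k) - φ (y k)| ≤ 2 * M * D := by
  classical
  have hpt : ∀ c : ℝ, ∑ k, (uIoo (φ (x k)) (φ (y k))).indicator (1 : ℝ → ℝ≥0∞) c ≤
      (Icc (-M) M).indicator (fun _ => (D : ℝ≥0∞)) c := by
    intro c
    have e1 : ∑ k, (uIoo (φ (x k)) (φ (y k))).indicator (1 : ℝ → ℝ≥0∞) c =
        ((Finset.univ.filter fun k => c ∈ uIoo (φ (x k)) (φ (y k))).card : ℝ≥0∞) := by
      simp only [Set.indicator_apply, Pi.one_apply]
      rw [Finset.sum_ite, Finset.sum_const_zero, add_zero, Finset.sum_const, nsmul_eq_mul, mul_one]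
    rw [e1]
    set K := Finset.univ.filter fun k => c ∈ uIoo (φ (x k)) (φ (y k)) with hK
    rcases K.eq_empty_or_nonempty with h0 | ⟨k0, hk0⟩
    · rw [h0, Finset.card_empty]; simp
    · have hc : c ∈ Icc (-M) M := by
        have h1 := (Finset.mem_filter.1 hk0).2
        have h2 := abs_le.1 (hM k0).1
        have h3 := abs_le.1 (hM k0).2
        rw [uIoo, mem_Ioo] at h1
        constructor
        · exact (le_inf h2.1 h3.1).trans h1.1.le
        · exact h1.2.le.trans (sup_le h2.2 h3.2)
      rw [Set.indicator_of_mem hc]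
      have hex : ∀ k ∈ K, ∃ ξ ∈ Ioo (x k) (y k), φ ξ = c := by
        intro k hk
        have h1 := (Finset.mem_filter.1 hk).2
        rcases le_total (φ (x k)) (φ (y k)) with h | h
        · rw [uIoo_of_le h] at h1
          exact intermediate_value_Ioo (hxy k).le (hφ k) h1
        · rw [uIoo_of_ge h] at h1
          exact intermediate_value_Ioo' (hxy k).le (hφ k) h1
      choose! ξ hξ hξc using hex
      have hinj : Set.InjOn ξ K := by
        intro k hk l hl hkl
        by_contra hne
        have := Set.disjoint_left.1 (hdisj k l hne) (hξ k hk)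
        rw [hkl] at this
        exact this (hξ l hl)
      have h4 := hroots c ⟨k0, fun h => by
        have h1 := (Finset.mem_filter.1 hk0).2
        rw [h] at h1
        exact Set.left_notMem_uIoo h1⟩ (K.image ξ) (by
        intro z hz
        obtain ⟨k, hk, rfl⟩ := Finset.mem_image.1 hz
        exact ⟨⟨k, hξ k hk⟩, hξc k hk⟩)
      rw [Finset.card_image_of_injOn hinj] at h4
      exact_mod_cast h4
  have h1 : ∑ k, ENNReal.ofReal |φ (x k) - φ (y k)| ≤ ENNReal.ofReal (2 * M * D) := by
    calc ∑ k, ENNReal.ofReal |φ (x k) - φ (y k)|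
        = ∑ k, ∫⁻ c, (uIoo (φ (x k)) (φ (y k))).indicator (1 : ℝ → ℝ≥0∞) c := by
          refine Finset.sum_congr rfl fun k _ => ?_
          rw [lintegral_indicator_one (by rw [uIoo]; exact measurableSet_Ioo), vol_uIoo]
      _ = ∫⁻ c, ∑ k, (uIoo (φ (x k)) (φ (y k))).indicator (1 : ℝ → ℝ≥0∞) c := by
          rw [lintegral_finsetSum]
          intro k _
          exact measurable_one.indicator (by rw [uIoo]; exact measurableSet_Ioo)
      _ ≤ ∫⁻ c, (Icc (-M) M).indicator (fun _ => (D : ℝ≥0∞)) c := lintegral_mono hpt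
      _ = ENNReal.ofReal (2 * M * D) := by
          rw [lintegral_indicator measurableSet_Icc, setLIntegral_const, Real.volume_Icc,
            ← ENNReal.ofReal_natCast, ← ENNReal.ofReal_mul (by positivity)]
          congr 1
          ring
  rw [← ENNReal.ofReal_sum_of_nonneg (fun _ _ => abs_nonneg _)] at h1
  exact (ENNReal.ofReal_le_ofReal_iff (by positivity)).1 h1

end Pool.Agent.TH234.PH
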