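import Pool.Agent.TH234.PH.Fld
import Pool.Agent.H811R2.QPlane

/-! # Closed orbits with increasing polar angle as periodic graphs -/

open Set MeasureTheory Polynomial Topology Filter intervalIntegral

namespace Pool.Agent.TH234.PH

open Pool.Agent.H811R2.Quad

noncomputable section

/-- `γ` is a closed orbit of `x' = P, y' = Q` with minimal period `T`. -/
structure Clo (P Q : MvPolynomial (Fin 2) ℝ) (γ : ℝ → ℝ × ℝ) (T : ℝ) : Prop where
  pos : 0 < T
  sol : ∀ t, HasDerivAt γ (ev P (γ t).1 (γ t).2, ev Q (γ t).1 (γ t).2) t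
  per : ∀ t, γ (t + T) = γ t
  min : ∀ s ∈ Ioo 0 T, γ s ≠ γ 0

lemma contDiff_ev (P : MvPolynomial (Fin 2) ℝ) :
    ContDiff ℝ 1 (fun p : ℝ × ℝ => ev P p.1 p.2) := by
  unfold ev
  induction P using MvPolynomial.induction_on with
  | C a => simp only [MvPolynomial.eval_C]; exact contDiff_const
  | add p q hp hq => simp only [map_add]; exact hp.add hq
  | mul_X p i hp =>
    simp only [map_mul, MvPolynomial.eval_X]
    refine hp.mul ?_
    fin_cases i
    · exact contDiff_fst
    · exact contDiff_snd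

lemma contDiff_fld (P Q : MvPolynomial (Fin 2) ℝ) :
    ContDiff ℝ 1 (fun p : ℝ × ℝ => (ev P p.1 p.2, ev Q p.1 p.2)) :=
  (contDiff_ev P).prodMk (contDiff_ev Q)

variable {P Q : MvPolynomial (Fin 2) ℝ}

/-- two solutions through a point differ by a time shift -/
lemma shift_eq {γ γ' : ℝ → ℝ × ℝ}
    (h : ∀ t, HasDerivAt γ (ev P (γ t).1 (γ t).2, ev Q (γ t).1 (γ t).2) t)
    (h' : ∀ t, HasDerivAt γ' (ev P (γ' t).1 (γ' t).2, ev Q (γ' t).1 (γ' t).2) t)
    {s s' : ℝ} (e : γ s = γ' s') (t : ℝ) : γ (t + s) = γ' (t + s') := by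
  have := ode_unique (contDiff_fld P Q) (f := fun t => γ (t + s)) (g := fun t => γ' (t + s'))
    (fun t => (h (t + s)).comp_add_const t s) (fun t => (h' (t + s')).comp_add_const t s')
    (t0 := 0) (by simp only [zero_add]; exact e)
  exact congrFun this t

/-- the exponent of a closed orbit -/
def expo (P Q : MvPolynomial (Fin 2) ℝ) (γ : ℝ → ℝ × ℝ) (T : ℝ) : ℝ :=
  ∫ t in (0:ℝ)..T, (ex P (γ t).1 (γ t).2 + ey Q (γ t).1 (γ t).2)

/-- the data of a graph -/
structure Grf (P Q : MvPolynomial (Fin 2) ℝ) (γ : ℝ → ℝ × ℝ) (T : ℝ) (U σ : ℝ → ℝ) : Prop where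
  dU : ∀ θ, HasDerivAt U (Fr (Ar P Q θ) (Br P Q θ) (U θ)) θ
  perU : ∀ θ, U (θ + 2 * Real.pi) = U θ
  posB : ∀ θ, 0 < (Br P Q θ).eval (Real.exp (U θ))
  pt : ∀ θ, γ (σ θ) = (Real.exp (U θ) * Real.cos θ, Real.exp (U θ) * Real.sin θ)
  expo : expo P Q γ T = ∫ θ in (0:ℝ)..(2 * Real.pi), Ph (Ar P Q θ) (Br P Q θ) (U θ)

lemma Grf.contU {γ : ℝ → ℝ × ℝ} {T : ℝ} {U σ : ℝ → ℝ} (h : Grf P Q γ T U σ) : Continuous U :=
  continuous_iff_continuousAt.2 fun θ => (h.dU θ).continuousAt

lemma cont_A {U : ℝ → ℝ} (hU : Continuous U) :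
    Continuous fun θ => (Ar P Q θ).eval (Real.exp (U θ)) := by
  simp only [eval_Ar]
  have h1 := continuous_ev P ((Real.continuous_exp.comp hU).mul Real.continuous_cos)
    ((Real.continuous_exp.comp hU).mul Real.continuous_sin)
  have h2 := continuous_ev Q ((Real.continuous_exp.comp hU).mul Real.continuous_cos)
    ((Real.continuous_exp.comp hU).mul Real.continuous_sin)
  exact (Real.continuous_cos.mul h1).add (Real.continuous_sin.mul h2)

lemma cont_B {U : ℝ → ℝ} (hU : Continuous U) :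
    Continuous fun θ => (Br P Q θ).eval (Real.exp (U θ)) := by
  simp only [eval_Br]
  have h1 := continuous_ev P ((Real.continuous_exp.comp hU).mul Real.continuous_cos)
    ((Real.continuous_exp.comp hU).mul Real.continuous_sin)
  have h2 := continuous_ev Q ((Real.continuous_exp.comp hU).mul Real.continuous_cos)
    ((Real.continuous_exp.comp hU).mul Real.continuous_sin)
  exact (Real.continuous_cos.mul h2).sub (Real.continuous_sin.mul h1)

lemma cont_dA {U : ℝ → ℝ} (hU : Continuous U) :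
    Continuous fun θ => (derivative (Ar P Q θ)).eval (Real.exp (U θ)) := by
  simp only [eval_dAr, ex, ey]
  have hx := (Real.continuous_exp.comp hU).mul Real.continuous_cos
  have hy := (Real.continuous_exp.comp hU).mul Real.continuous_sin
  exact (Real.continuous_cos.mul (((continuous_ev _ hx hy).mul Real.continuous_cos).add
    ((continuous_ev _ hx hy).mul Real.continuous_sin))).add
    (Real.continuous_sin.mul (((continuous_ev _ hx hy).mul Real.continuous_cos).add
    ((continuous_ev _ hx hy).mul Real.continuous_sin)))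

lemma cont_dB {U : ℝ → ℝ} (hU : Continuous U) :
    Continuous fun θ => (derivative (Br P Q θ)).eval (Real.exp (U θ)) := by
  simp only [eval_dBr, ex, ey]
  have hx := (Real.continuous_exp.comp hU).mul Real.continuous_cos
  have hy := (Real.continuous_exp.comp hU).mul Real.continuous_sin
  exact (Real.continuous_cos.mul (((continuous_ev _ hx hy).mul Real.continuous_cos).add
    ((continuous_ev _ hx hy).mul Real.continuous_sin))).sub
    (Real.continuous_sin.mul (((continuous_ev _ hx hy).mul Real.continuous_cos).add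
    ((continuous_ev _ hx hy).mul Real.continuous_sin)))

lemma cont_Ph {U : ℝ → ℝ} (hU : Continuous U)
    (hB : ∀ θ, (Br P Q θ).eval (Real.exp (U θ)) ≠ 0) :
    Continuous fun θ => Ph (Ar P Q θ) (Br P Q θ) (U θ) := by
  unfold Ph
  exact ((Real.continuous_exp.comp hU).mul (((cont_dA hU).mul (cont_B hU)).sub
    ((cont_A hU).mul (cont_dB hU)))).div ((cont_B hU).pow 2) fun θ => pow_ne_zero 2 (hB θ)

lemma cont_Fr {U : ℝ → ℝ} (hU : Continuous U)
    (hB : ∀ θ, (Br P Q θ).eval (Real.exp (U θ)) ≠ 0) :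
    Continuous fun θ => Fr (Ar P Q θ) (Br P Q θ) (U θ) := by
  unfold Fr
  exact (cont_A hU).div (cont_B hU) hB

lemma rp_per (R : MvPolynomial (Fin 2) ℝ) (θ : ℝ) :
    rp R (Real.cos (θ + 2 * Real.pi)) (Real.sin (θ + 2 * Real.pi)) =
      rp R (Real.cos θ) (Real.sin θ) := by
  rw [Real.cos_add_two_pi, Real.sin_add_two_pi]

lemma Ar_per (θ : ℝ) : Ar P Q (θ + 2 * Real.pi) = Ar P Q θ := by
  unfold Ar
  rw [rp_per, rp_per, Real.cos_add_two_pi, Real.sin_add_two_pi]

lemma Br_per (θ : ℝ) : Br P Q (θ + 2 * Real.pi) = Br P Q θ := by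
  unfold Br
  rw [rp_per, rp_per, Real.cos_add_two_pi, Real.sin_add_two_pi]

theorem exists_grf {γ : ℝ → ℝ × ℝ} {T : ℝ} (hC : Clo P Q γ T)
    (hD : ∀ t, 0 < (γ t).1 * ev Q (γ t).1 (γ t).2 - (γ t).2 * ev P (γ t).1 (γ t).2) :
    ∃ U σ, Grf P Q γ T U σ := by
  obtain ⟨hT0, hγ, hγT, hmin⟩ := hC
  have hγc : Continuous γ := continuous_iff_continuousAt.2 fun t => (hγ t).continuousAt
  set x : ℝ → ℝ := fun t => (γ t).1 with hx
  set y : ℝ → ℝ := fun t => (γ t).2 with hy
  have hxc : Continuous x := continuous_fst.comp hγc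
  have hyc : Continuous y := continuous_snd.comp hγc
  set p : ℝ → ℝ := fun t => ev P (x t) (y t) with hp
  set q : ℝ → ℝ := fun t => ev Q (x t) (y t) with hq
  have hpc : Continuous p := continuous_ev P hxc hyc
  have hqc : Continuous q := continuous_ev Q hxc hyc
  have dx : ∀ t, HasDerivAt x (p t) t := fun t => (hγ t).fst
  have dy : ∀ t, HasDerivAt y (q t) t := fun t => (hγ t).snd
  set z : ℝ → ℂ := fun t => (x t : ℂ) + (y t : ℂ) * Complex.I with hz
  have hzre : ∀ t, (z t).re = x t := fun t => by simp [hz]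
  have hzim : ∀ t, (z t).im = y t := fun t => by simp [hz]
  have hz0 : ∀ t, z t ≠ 0 := by
    intro t h
    have h1 := hzre t
    have h2 := hzim t
    rw [h] at h1 h2
    have h3 := hD t
    change 0 < x t * q t - y t * p t at h3
    rw [← h1, ← h2] at h3
    simp at h3
  have dz : ∀ t, HasDerivAt z ((p t : ℂ) + (q t : ℂ) * Complex.I) t := fun t =>
    (dx t).ofReal_comp.add ((dy t).ofReal_comp.mul_const Complex.I)
  have hzc : Continuous z := continuous_iff_continuousAt.2 fun t => (dz t).continuousAt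
  set W : ℝ → ℂ := fun t => ((p t : ℂ) + (q t : ℂ) * Complex.I) / z t with hW
  have hWc : Continuous W := by
    refine Continuous.div ?_ hzc hz0
    exact (Complex.continuous_ofReal.comp hpc).add
      ((Complex.continuous_ofReal.comp hqc).mul continuous_const)
  obtain ⟨ϑ, ρ, dϑ0, dρ0, hpol⟩ := exists_lift hWc hz0 (fun t => by
    simp only [hW]; rw [div_mul_cancel₀ _ (hz0 t)]; exact dz t)
  have hpol' : ∀ t, z t = (Real.exp (ρ t) : ℝ) * Complex.exp (ϑ t * Complex.I) := by
    intro t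
    rw [hpol t, Complex.exp_add, Complex.ofReal_exp]
  have hxp : ∀ t, x t = Real.exp (ρ t) * Real.cos (ϑ t) := by
    intro t
    rw [← hzre, hpol', Complex.re_ofReal_mul, Complex.exp_ofReal_mul_I_re]
  have hyp : ∀ t, y t = Real.exp (ρ t) * Real.sin (ϑ t) := by
    intro t
    rw [← hzim, hpol', Complex.im_ofReal_mul, Complex.exp_ofReal_mul_I_im]
  set a : ℝ → ℝ := fun t => (Ar P Q (ϑ t)).eval (Real.exp (ρ t)) / Real.exp (ρ t) with ha
  set b : ℝ → ℝ := fun t => (Br P Q (ϑ t)).eval (Real.exp (ρ t)) / Real.exp (ρ t) with hb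
  have hWt : ∀ t, W t = (a t : ℂ) + (b t : ℂ) * Complex.I := by
    intro t
    simp only [hW]
    rw [div_eq_iff (hz0 t)]
    have e1 : a t * Real.exp (ρ t) = Real.cos (ϑ t) * p t + Real.sin (ϑ t) * q t := by
      simp only [ha]
      rw [div_mul_cancel₀ _ (Real.exp_pos _).ne', eval_Ar, ← hxp, ← hyp]
    have e2 : b t * Real.exp (ρ t) = Real.cos (ϑ t) * q t - Real.sin (ϑ t) * p t := by
      simp only [hb]
      rw [div_mul_cancel₀ _ (Real.exp_pos _).ne', eval_Br, ← hxp, ← hyp]
    have h1 := Real.sin_sq_add_cos_sq (ϑ t)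
    have hx1 := hxp t
    have hy1 := hyp t
    apply Complex.ext
    · simp only [Complex.add_re, Complex.ofReal_re, Complex.mul_re, Complex.I_re, mul_zero,
        Complex.ofReal_im, Complex.I_im, mul_one, sub_self, add_zero, Complex.add_im,
        Complex.mul_im, zero_add]
      rw [hzre, hzim, hx1, hy1]
      linear_combination (-Real.cos (ϑ t)) * e1 + (Real.sin (ϑ t)) * e2 - p t * h1
    · simp only [Complex.add_re, Complex.ofReal_re, Complex.mul_re, Complex.I_re, mul_zero,
        Complex.ofReal_im, Complex.I_im, mul_one, sub_self, add_zero, Complex.add_im,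
        Complex.mul_im, zero_add]
      rw [hzre, hzim, hx1, hy1]
      linear_combination (-Real.sin (ϑ t)) * e1 - (Real.cos (ϑ t)) * e2 - q t * h1
  have dϑ : ∀ t, HasDerivAt ϑ (b t) t := by
    intro t
    refine (dϑ0 t).congr_deriv ?_
    rw [hWt]; simp
  have dρ : ∀ t, HasDerivAt ρ (a t) t := by
    intro t
    refine (dρ0 t).congr_deriv ?_
    rw [hWt]; simp
  have hDB : ∀ t, x t * q t - y t * p t =
      Real.exp (ρ t) * (Br P Q (ϑ t)).eval (Real.exp (ρ t)) := by
    intro t
    rw [eval_Br, ← hxp, ← hyp]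
    have hx1 := hxp t
    have hy1 := hyp t
    change x t * q t - y t * p t = Real.exp (ρ t) * (Real.cos (ϑ t) * q t - Real.sin (ϑ t) * p t)
    linear_combination q t * hx1 - p t * hy1
  have hBpos : ∀ t, 0 < (Br P Q (ϑ t)).eval (Real.exp (ρ t)) := by
    intro t
    have h1 := hD t
    change 0 < x t * q t - y t * p t at h1
    rw [hDB t] at h1
    exact (mul_pos_iff_of_pos_left (Real.exp_pos _)).1 h1
  have hbpos : ∀ t, 0 < b t := fun t => div_pos (hBpos t) (Real.exp_pos _)
  have hϑc : Continuous ϑ := continuous_iff_continuousAt.2 fun t => (dϑ t).continuousAt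
  have hρc : Continuous ρ := continuous_iff_continuousAt.2 fun t => (dρ t).continuousAt
  have hmono : StrictMono ϑ := strictMono_of_deriv_pos fun t => by rw [(dϑ t).deriv]; exact hbpos t
  -- periodicity
  have hnorm : ∀ t, ‖z t‖ = Real.exp (ρ t) := by
    intro t
    rw [hpol' t, norm_mul, Complex.norm_real, Complex.norm_exp_ofReal_mul_I, mul_one,
      Real.norm_of_nonneg (Real.exp_pos _).le]
  have hzT : ∀ t, z (t + T) = z t := fun t => by simp only [hz, hx, hy, hγT]
  have hρT : ∀ t, ρ (t + T) = ρ t := by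
    intro t
    have h1 := hnorm (t + T)
    rw [hzT, hnorm] at h1
    exact (Real.exp_injective h1).symm
  have hWT : ∀ t, W (t + T) = W t := fun t => by simp only [hW, hp, hq, hx, hy, hz, hγT]
  have hbT : ∀ t, b (t + T) = b t := by
    intro t
    have h1 := congrArg Complex.im (hWT t)
    rw [hWt, hWt] at h1
    simpa using h1
  obtain ⟨κ, hκ⟩ : ∃ κ : ℝ, ∀ t, ϑ (t + T) = ϑ t + κ := by
    have hd : ∀ t, HasDerivAt (fun t => ϑ (t + T) - ϑ t) 0 t := by
      intro t
      refine (((dϑ (t + T)).comp_add_const t T).sub (dϑ t)).congr_deriv ?_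
      rw [hbT, sub_self]
    refine ⟨ϑ (0 + T) - ϑ 0, fun t => ?_⟩
    have := is_const_of_deriv_eq_zero (f := fun t => ϑ (t + T) - ϑ t)
      (fun t => (hd t).differentiableAt) (fun t => (hd t).deriv) t 0
    linarith
  obtain ⟨k, hk⟩ : ∃ k : ℤ, κ = k * (2 * Real.pi) := by
    have h1 : Complex.exp (ϑ (0 + T) * Complex.I) = Complex.exp (ϑ 0 * Complex.I) := by
      have e1 := hpol' (0 + T)
      have e2 := hpol' 0
      rw [hzT, hρT, e2] at e1
      exact (mul_left_cancel₀ (by exact_mod_cast (Real.exp_pos (ρ 0)).ne') e1).symm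
    rw [Complex.exp_eq_exp_iff_exists_int] at h1
    obtain ⟨k, hk⟩ := h1
    refine ⟨k, ?_⟩
    have h2 := congrArg Complex.im hk
    simp at h2
    have h3 := hκ 0
    rw [zero_add] at h3
    linarith
  have hκpos : 0 < κ := by
    have h1 := hmono (show (0:ℝ) < 0 + T by linarith)
    rw [hκ] at h1
    linarith
  have hpi := Real.pi_pos
  have hkpos : 0 < k := by
    by_contra hc
    push Not at hc
    have h1 : (k:ℝ) ≤ 0 := by exact_mod_cast hc
    have := mul_nonpos_of_nonpos_of_nonneg h1 (by positivity : (0:ℝ) ≤ 2 * Real.pi)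
    rw [hk] at hκpos
    linarith
  have hsurj : Function.Surjective ϑ := by
    intro θ
    obtain ⟨n, hn⟩ := exists_nat_gt (|θ - ϑ 0| / κ)
    rw [div_lt_iff₀ hκpos] at hn
    have h1 := iter_shift hκ n 0
    have h2 := iter_shift_neg hκ n 0
    have h3 := abs_le.1 hn.le
    exact mem_range_of_exists_le_of_exists_ge hϑc ⟨0 - n * T, by linarith [h3.1]⟩
      ⟨0 + n * T, by linarith [h3.2]⟩
  set E : ℝ ≃o ℝ := StrictMono.orderIsoOfSurjective ϑ hmono hsurj with hE
  set σ : ℝ → ℝ := fun θ => E.symm θ with hσ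
  have hEϑ : ∀ t, E t = ϑ t := fun t => rfl
  have hϑσ : ∀ θ, ϑ (σ θ) = θ := fun θ => by rw [← hEϑ]; exact E.apply_symm_apply θ
  have hσϑ : ∀ t, σ (ϑ t) = t := fun t => by rw [← hEϑ]; exact E.symm_apply_apply t
  have hσc : Continuous σ := E.symm.continuous
  have dσ : ∀ θ, HasDerivAt σ (b (σ θ))⁻¹ θ := fun θ =>
    HasDerivAt.of_local_left_inverse hσc.continuousAt (dϑ (σ θ)) (hbpos _).ne'
      (Filter.Eventually.of_forall hϑσ)
  set U : ℝ → ℝ := fun θ => ρ (σ θ) with hU
  have hUc : Continuous U := hρc.comp hσc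
  have hUϑ : ∀ t, U (ϑ t) = ρ t := fun t => by simp only [hU, hσϑ]
  have hpt : ∀ θ, γ (σ θ) = (Real.exp (U θ) * Real.cos θ, Real.exp (U θ) * Real.sin θ) := by
    intro θ
    have h1 := hxp (σ θ)
    have h2 := hyp (σ θ)
    rw [hϑσ] at h1 h2
    exact Prod.ext h1 h2
  have hdU : ∀ θ, HasDerivAt U (Fr (Ar P Q θ) (Br P Q θ) (U θ)) θ := by
    intro θ
    refine ((dρ (σ θ)).comp θ (dσ θ)).congr_deriv ?_
    have h1 := hBpos (σ θ)
    simp only [ha, hb, hϑσ]
    rw [hϑσ] at h1
    unfold Fr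
    have h2 := (Real.exp_pos (ρ (σ θ))).ne'
    have h3 := h1.ne'
    simp only [hU]
    field_simp
  -- the angle increases by `2 π` in one period
  obtain ⟨k', hk'⟩ := Int.eq_ofNat_of_zero_le hkpos.le
  have hk'0 : 0 < k' := by omega
  have hκ' : ∀ t, ϑ (t + T) = ϑ t + k' * (2 * Real.pi) := by
    intro t
    rw [hκ, hk, hk']; norm_cast
  have hσT : ∀ θ, σ (θ + k' * (2 * Real.pi)) = σ θ + T := by
    intro θ
    apply hmono.injective
    rw [hϑσ, hκ', hϑσ]
  have hUk : ∀ θ, U (θ + k' * (2 * Real.pi)) = U θ := by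
    intro θ
    simp only [hU]
    rw [hσT, hρT]
  have hex : ∃ θ, U (θ + 2 * Real.pi) = U θ := by
    by_contra hno
    push Not at hno
    have hdc : Continuous fun θ => U (θ + 2 * Real.pi) - U θ :=
      (hUc.comp (continuous_id.add continuous_const)).sub hUc
    have hstep : ∀ (n : ℕ) θ, U (θ + n * (2 * Real.pi)) - U θ =
        ∑ i ∈ Finset.range n, (U (θ + i * (2 * Real.pi) + 2 * Real.pi) -
          U (θ + i * (2 * Real.pi))) := by
      intro n θ
      induction n with
      | zero => simp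
      | succ n ih =>
        rw [Finset.sum_range_succ, ← ih]
        push_cast
        rw [show θ + (n + 1) * (2 * Real.pi) = θ + n * (2 * Real.pi) + 2 * Real.pi by ring]
        ring
    have h1 := hstep k' 0
    rw [hUk, sub_self] at h1
    rcases lt_or_gt_of_ne (hno 0) with h | h
    · have hall : ∀ θ, U (θ + 2 * Real.pi) - U θ < 0 := by
        intro θ
        by_contra hc
        push Not at hc
        obtain ⟨s, hs⟩ := mem_range_of_exists_le_of_exists_ge (c := 0) hdc ⟨0, by linarith⟩ ⟨θ, hc⟩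
        exact hno s (by linarith)
      have : ∑ i ∈ Finset.range k', (U (0 + i * (2 * Real.pi) + 2 * Real.pi) -
          U (0 + i * (2 * Real.pi))) < 0 :=
        Finset.sum_neg (fun i _ => hall _) ⟨0, Finset.mem_range.2 hk'0⟩
      linarith
    · have hall : ∀ θ, 0 < U (θ + 2 * Real.pi) - U θ := by
        intro θ
        by_contra hc
        push Not at hc
        obtain ⟨s, hs⟩ := mem_range_of_exists_le_of_exists_ge (c := 0) hdc ⟨θ, hc⟩ ⟨0, by linarith⟩
        exact hno s (by linarith)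
      have : 0 < ∑ i ∈ Finset.range k', (U (0 + i * (2 * Real.pi) + 2 * Real.pi) -
          U (0 + i * (2 * Real.pi))) :=
        Finset.sum_pos (fun i _ => hall _) ⟨0, Finset.mem_range.2 hk'0⟩
      linarith
  obtain ⟨θ₀, hθ₀⟩ := hex
  have hk1 : k' = 1 := by
    by_contra hne
    have hk2 : (2:ℝ) ≤ k' := by exact_mod_cast (by omega : 2 ≤ k')
    set τ := σ (θ₀ + 2 * Real.pi) - σ θ₀ with hτ
    have hτ0 : 0 < τ := by
      have : σ θ₀ < σ (θ₀ + 2 * Real.pi) := E.symm.strictMono (by linarith)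
      linarith
    have hτT : τ < T := by
      have h1 : σ (θ₀ + 2 * Real.pi) < σ (θ₀ + k' * (2 * Real.pi)) :=
        E.symm.strictMono (by nlinarith)
      rw [hσT] at h1
      linarith
    have e1 : γ (σ (θ₀ + 2 * Real.pi)) = γ (σ θ₀) := by
      rw [hpt, hpt, hθ₀, Real.cos_add_two_pi, Real.sin_add_two_pi]
    have e2 := shift_eq (P := P) (Q := Q) hγ hγ e1 (-σ θ₀)
    rw [neg_add_cancel] at e2
    apply hmin τ ⟨hτ0, hτT⟩
    rw [← e2]
    congr 1
    rw [hτ]; ring
  subst hk1
  have hU2 : ∀ θ, U (θ + 2 * Real.pi) = U θ := by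
    intro θ
    have := hUk θ
    simpa using this
  have hBU : ∀ θ, 0 < (Br P Q θ).eval (Real.exp (U θ)) := by
    intro θ
    have := hBpos (σ θ)
    rw [hϑσ] at this
    exact this
  refine ⟨U, σ, hdU, hU2, hBU, hpt, ?_⟩
  -- the exponent
  have hϕc := cont_Ph (P := P) (Q := Q) hUc fun θ => (hBU θ).ne'
  have hexc : Continuous fun t => ex P (x t) (y t) := continuous_ev _ hxc hyc
  have heyc : Continuous fun t => ey P (x t) (y t) := continuous_ev _ hxc hyc
  have hexc' : Continuous fun t => ex Q (x t) (y t) := continuous_ev _ hxc hyc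
  have heyc' : Continuous fun t => ey Q (x t) (y t) := continuous_ev _ hxc hyc
  set δ : ℝ → ℝ := fun t => x t * q t - y t * p t with hδ
  set δ' : ℝ → ℝ := fun t => x t * (ex Q (x t) (y t) * p t + ey Q (x t) (y t) * q t) -
    y t * (ex P (x t) (y t) * p t + ey P (x t) (y t) * q t) with hδ'
  have hδpos : ∀ t, 0 < δ t := hD
  have dδ : ∀ t, HasDerivAt δ (δ' t) t := by
    intro t
    refine (((dx t).mul (hasDerivAt_ev Q (dx t) (dy t))).sub
      ((dy t).mul (hasDerivAt_ev P (dx t) (dy t)))).congr_deriv ?_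
    simp only [hδ', hp, hq]
    ring
  have hδc : Continuous δ := continuous_iff_continuousAt.2 fun t => (dδ t).continuousAt
  have hδ'c : Continuous δ' := by
    simp only [hδ']
    exact (hxc.mul ((hexc'.mul hpc).add (heyc'.mul hqc))).sub
      (hyc.mul ((hexc.mul hpc).add (heyc.mul hqc)))
  have hlog : ∫ t in (0:ℝ)..T, δ' t / δ t = 0 := by
    rw [integral_eq_sub_of_hasDerivAt (f := fun t => Real.log (δ t))
      (fun t _ => (dδ t).log (hδpos t).ne')
      ((hδ'c.div hδc fun t => (hδpos t).ne').intervalIntegrable _ _)]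
    have : δ T = δ 0 := by
      have h1 := hγT 0
      rw [zero_add] at h1
      simp only [hδ, hx, hy, hp, hq, h1]
    rw [this, sub_self]
  have hbc : Continuous b := by
    have h1 : b = fun t => (W t).im := by
      funext t
      rw [hWt]; simp
    rw [h1]
    exact Complex.continuous_im.comp hWc
  have hsub := integral_comp_mul_deriv (a := 0) (b := T) (f := ϑ) (f' := b)
    (g := fun θ => Ph (Ar P Q θ) (Br P Q θ) (U θ)) (fun t _ => dϑ t) hbc.continuousOn hϕc
  have hpw : ∀ t, ex P (x t) (y t) + ey Q (x t) (y t) =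
      ((fun θ => Ph (Ar P Q θ) (Br P Q θ) (U θ)) ∘ ϑ) t * b t + δ' t / δ t := by
    intro t
    have h1 := div_identity P Q (ϑ t) (Real.exp (ρ t))
    simp only [← hxp, ← hyp] at h1
    have h2 := hDB t
    have h3 := (hBpos t).ne'
    have h4 := (Real.exp_pos (ρ t)).ne'
    have h5 : δ' t = Real.exp (ρ t) *
        (Real.cos (ϑ t) * (ex Q (x t) (y t) * ev P (x t) (y t) + ey Q (x t) (y t) * ev Q (x t) (y t))
        - Real.sin (ϑ t) * (ex P (x t) (y t) * ev P (x t) (y t) +
          ey P (x t) (y t) * ev Q (x t) (y t))) := by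
      simp only [hδ', hp, hq]
      linear_combination (ex Q (x t) (y t) * ev P (x t) (y t) + ey Q (x t) (y t) * ev Q (x t) (y t))
        * hxp t - (ex P (x t) (y t) * ev P (x t) (y t) +
          ey P (x t) (y t) * ev Q (x t) (y t)) * hyp t
    have h6 : δ t = Real.exp (ρ t) * (Br P Q (ϑ t)).eval (Real.exp (ρ t)) := h2
    simp only [Function.comp_apply]
    rw [hUϑ, h5, h6]
    unfold Ph
    simp only [hb]
    field_simp
    linear_combination h1
  unfold expo
  change ∫ t in (0:ℝ)..T, (ex P (x t) (y t) + ey Q (x t) (y t)) = _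
  simp only [hpw]
  rw [intervalIntegral.integral_add, hlog, add_zero, hsub]
  · have h1 := hκ' 0
    rw [zero_add] at h1
    rw [h1]
    have hp2 : Function.Periodic (fun θ => Ph (Ar P Q θ) (Br P Q θ) (U θ)) (2 * Real.pi) := by
      intro θ
      simp only [Ar_per, Br_per, hU2]
    have h3 := hp2.intervalIntegral_add_eq (ϑ 0) 0
    simp only [Nat.cast_one, one_mul]
    rw [h3, zero_add]
  · exact ((hϕc.comp hϑc).mul hbc).intervalIntegrable _ _
  · exact (hδ'c.div hδc fun t => (hδpos t).ne').intervalIntegrable _ _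

end

end Pool.Agent.TH234.PH
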