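import Pool.Agent.TH234.PH.Levels

/-! # A rational function on a ray -/

open Set MeasureTheory Polynomial

namespace Pool.Agent.TH234.PH

noncomputable section

/-- the quotient as a function of the logarithm -/
def Fr (A B : ℝ[X]) (u : ℝ) : ℝ := A.eval (Real.exp u) / B.eval (Real.exp u)

/-- its derivative -/
def Ph (A B : ℝ[X]) (u : ℝ) : ℝ :=
  Real.exp u * (A.derivative.eval (Real.exp u) * B.eval (Real.exp u) -
    A.eval (Real.exp u) * B.derivative.eval (Real.exp u)) / B.eval (Real.exp u) ^ 2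

lemma hasDerivAt_Fr (A B : ℝ[X]) (u : ℝ) (hB : B.eval (Real.exp u) ≠ 0) :
    HasDerivAt (Fr A B) (Ph A B u) u := by
  have h1 := (A.hasDerivAt (Real.exp u)).comp u (Real.hasDerivAt_exp u)
  have h2 := (B.hasDerivAt (Real.exp u)).comp u (Real.hasDerivAt_exp u)
  have h3 := h1.div h2 hB
  refine h3.congr_deriv ?_
  simp only [Function.comp_apply]
  unfold Ph
  congr 1
  ring

/-- the polynomial of the level `c` -/
def Lev (A B : ℝ[X]) (c : ℝ) : ℝ[X] :=
  X * (derivative A * B - A * derivative B) - C c * B ^ 2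

lemma natDegree_X_mul_derivative_le {A : ℝ[X]} {n : ℕ} (hA : A.natDegree ≤ n) :
    (X * derivative A).natDegree ≤ n := by
  rw [natDegree_le_iff_coeff_eq_zero]
  intro k hk
  rcases k with _ | k
  · simp
  · rw [coeff_X_mul, coeff_derivative, natDegree_le_iff_coeff_eq_zero.1 hA (k + 1) hk, zero_mul]

lemma natDegree_Lev_le {A B : ℝ[X]} {n : ℕ} (hA : A.natDegree ≤ n) (hB : B.natDegree ≤ n)
    (c : ℝ) : (Lev A B c).natDegree ≤ 2 * n := by
  have e : Lev A B c = X * derivative A * B - A * (X * derivative B) - C c * B ^ 2 := by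
    unfold Lev; ring
  rw [e]
  refine (natDegree_sub_le _ _).trans (max_le ((natDegree_sub_le _ _).trans (max_le ?_ ?_)) ?_)
  · refine natDegree_mul_le.trans ?_
    have := natDegree_X_mul_derivative_le hA
    omega
  · refine natDegree_mul_le.trans ?_
    have := natDegree_X_mul_derivative_le hB
    omega
  · refine (natDegree_C_mul_le _ _).trans (natDegree_pow_le.trans ?_)
    omega

lemma eval_Lev {A B : ℝ[X]} {c u : ℝ} (hB : B.eval (Real.exp u) ≠ 0) :
    (Lev A B c).eval (Real.exp u) = (Ph A B u - c) * B.eval (Real.exp u) ^ 2 := by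
  unfold Lev Ph
  simp only [eval_sub, eval_mul, eval_X, eval_C, eval_pow]
  field_simp

/-- each level is attained at most `2 n` times -/
lemma card_roots {A B : ℝ[X]} {n : ℕ} (hA : A.natDegree ≤ n) (hB : B.natDegree ≤ n) {c u0 : ℝ}
    (h0 : B.eval (Real.exp u0) ≠ 0) (h1 : Ph A B u0 ≠ c) (R : Finset ℝ)
    (hR : ∀ ξ ∈ R, B.eval (Real.exp ξ) ≠ 0 ∧ Ph A B ξ = c) : R.card ≤ 2 * n := by
  classical
  have hne : Lev A B c ≠ 0 := by
    intro h
    have h2 := eval_Lev (A := A) (c := c) h0
    rw [h, eval_zero] at h2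
    have h3 := mul_eq_zero.1 h2.symm
    rcases h3 with h3 | h3
    · exact h1 (by linarith)
    · exact h0 (by simpa using h3)
  have hsub : R.image Real.exp ⊆ (Lev A B c).roots.toFinset := by
    intro z hz
    obtain ⟨ξ, hξ, rfl⟩ := Finset.mem_image.1 hz
    rw [Multiset.mem_toFinset, mem_roots hne, IsRoot.def, eval_Lev (hR ξ hξ).1, (hR ξ hξ).2,
      sub_self, zero_mul]
  have h2 := Finset.card_le_card hsub
  rw [Finset.card_image_of_injective _ Real.exp_injective] at h2
  exact h2.trans ((Multiset.toFinset_card_le _).trans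
    ((card_roots' _).trans (natDegree_Lev_le hA hB c)))

lemma continuousAt_Ph {A B : ℝ[X]} {u : ℝ} (hB : B.eval (Real.exp u) ≠ 0) :
    ContinuousAt (Ph A B) u := by
  unfold Ph
  have h1 : Continuous fun u => A.eval (Real.exp u) := A.continuous.comp Real.continuous_exp
  have h2 : Continuous fun u => B.eval (Real.exp u) := B.continuous.comp Real.continuous_exp
  have h3 : Continuous fun u => A.derivative.eval (Real.exp u) :=
    A.derivative.continuous.comp Real.continuous_exp
  have h4 : Continuous fun u => B.derivative.eval (Real.exp u) :=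
    B.derivative.continuous.comp Real.continuous_exp
  refine ContinuousAt.div ?_ ?_ (pow_ne_zero 2 hB)
  · exact (Real.continuous_exp.mul ((h3.mul h2).sub (h1.mul h4))).continuousAt
  · exact (h2.pow 2).continuousAt

/-- **Variation along a ray.** For a chain of points `p 0 < p 1 < ... < p m` the sum of the
differences between the derivative at the points and the difference quotients of neighbours is at
most `4 n M`. -/
theorem ray {A B : ℝ[X]} {n : ℕ} (hA : A.natDegree ≤ n) (hB : B.natDegree ≤ n) {m : ℕ}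
    (p : Fin (m + 1) → ℝ) (hp : StrictMono p)
    (hne : ∀ u ∈ Icc (p 0) (p (Fin.last m)), B.eval (Real.exp u) ≠ 0) {M : ℝ}
    (hM : ∀ u ∈ Icc (p 0) (p (Fin.last m)), |Ph A B u| ≤ M) :
    ∑ j : Fin m, (|Ph A B (p j.castSucc) - (Fr A B (p j.succ) - Fr A B (p j.castSucc)) /
        (p j.succ - p j.castSucc)| +
      |Ph A B (p j.succ) - (Fr A B (p j.succ) - Fr A B (p j.castSucc)) /
        (p j.succ - p j.castSucc)|) ≤ 4 * n * M := by
  classical
  have hM0 : 0 ≤ M := (abs_nonneg _).trans (hM (p 0) ⟨le_rfl, hp.monotone (Fin.zero_le _)⟩)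
  have hmem : ∀ i, p i ∈ Icc (p 0) (p (Fin.last m)) := fun i =>
    ⟨hp.monotone (Fin.zero_le _), hp.monotone (Fin.le_last _)⟩
  have hlt : ∀ j : Fin m, p j.castSucc < p j.succ := fun j => hp (Fin.castSucc_lt_succ (i := j))
  have hsub : ∀ j : Fin m, Icc (p j.castSucc) (p j.succ) ⊆ Icc (p 0) (p (Fin.last m)) :=
    fun j => Icc_subset_Icc (hmem _).1 (hmem _).2
  have hmid : ∀ j : Fin m, ∃ c ∈ Ioo (p j.castSucc) (p j.succ), Ph A B c =
      (Fr A B (p j.succ) - Fr A B (p j.castSucc)) / (p j.succ - p j.castSucc) := by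
    intro j
    refine exists_hasDerivAt_eq_slope (Fr A B) (Ph A B) (hlt j) ?_ ?_
    · intro u hu
      exact (hasDerivAt_Fr A B u (hne u (hsub j hu))).continuousAt.continuousWithinAt
    · intro u hu
      exact hasDerivAt_Fr A B u (hne u (hsub j ⟨hu.1.le, hu.2.le⟩))
  choose c hc hcs using hmid
  simp only [← hcs]
  set x : Fin m ⊕ Fin m → ℝ := Sum.elim (fun j => p j.castSucc) c with hx
  set y : Fin m ⊕ Fin m → ℝ := Sum.elim c (fun j => p j.succ) with hy
  have hin : ∀ k, x k ∈ Icc (p 0) (p (Fin.last m)) ∧ y k ∈ Icc (p 0) (p (Fin.last m)) := by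
    rintro (j | j)
    · exact ⟨hmem _, hsub j ⟨(hc j).1.le, (hc j).2.le⟩⟩
    · exact ⟨hsub j ⟨(hc j).1.le, (hc j).2.le⟩, hmem _⟩
  have key := levels x y (by
      rintro (j | j)
      · exact (hc j).1
      · exact (hc j).2) (by
      -- disjointness
      have hmono : ∀ i j : Fin m, i < j → p i.succ ≤ p j.castSucc := fun i j hij =>
        hp.monotone (by
          rw [Fin.le_def, Fin.val_succ, Fin.val_castSucc]
          exact hij)
      rintro (i | i) (j | j) hij
      all_goals
        rw [Set.disjoint_left]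
        intro z hz1 hz2
        simp only [hx, hy, Sum.elim_inl, Sum.elim_inr, mem_Ioo] at hz1 hz2
      · rcases lt_trichotomy i j with h | h | h
        · linarith [hmono i j h, (hc i).2, (hc j).1]
        · exact hij (by rw [h])
        · linarith [hmono j i h, (hc i).1, (hc j).2]
      · rcases lt_trichotomy i j with h | h | h
        · linarith [hmono i j h, (hc i).2, (hc j).1]
        · subst h; linarith
        · linarith [hmono j i h, (hc i).1, (hc j).2]
      · rcases lt_trichotomy i j with h | h | h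
        · linarith [hmono i j h, (hc i).2, (hc j).1]
        · subst h; linarith
        · linarith [hmono j i h, (hc i).1, (hc j).2]
      · rcases lt_trichotomy i j with h | h | h
        · linarith [hmono i j h, (hc i).2, (hc j).1]
        · exact hij (by rw [h])
        · linarith [hmono j i h, (hc i).1, (hc j).2])
    (Ph A B) (by
      intro k u hu
      exact (continuousAt_Ph (hne u ⟨(hin k).1.1.trans hu.1, hu.2.trans (hin k).2.2⟩)).continuousWithinAt)
    hM0 (fun k => ⟨hM _ (hin k).1, hM _ (hin k).2⟩) (2 * n) (by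
      rintro c' ⟨k, hk⟩ R hR
      refine card_roots hA hB (hne _ (hin k).1) hk R ?_
      intro ξ hξ
      obtain ⟨⟨l, hl⟩, h2⟩ := hR ξ hξ
      exact ⟨hne ξ ⟨(hin l).1.1.trans hl.1.le, hl.2.le.trans (hin l).2.2⟩, h2⟩)
  rw [Fintype.sum_sum_type] at key
  simp only [hx, hy, Sum.elim_inl, Sum.elim_inr] at key
  rw [Finset.sum_add_distrib]
  have e : ∑ j : Fin m, |Ph A B (p j.succ) - Ph A B (c j)| =
      ∑ j : Fin m, |Ph A B (c j) - Ph A B (p j.succ)| :=
    Finset.sum_congr rfl fun j _ => abs_sub_comm _ _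
  rw [e]
  refine key.trans (le_of_eq ?_)
  push_cast
  ring

/-- the bound of the variation along the rays, with the constant `4 d M` -/
def RayBound (A B : ℝ[X]) (d : ℕ) : Prop :=
  ∀ (m : ℕ) (p : Fin (m + 1) → ℝ), StrictMono p →
    (∀ u ∈ Icc (p 0) (p (Fin.last m)), B.eval (Real.exp u) ≠ 0) → ∀ M : ℝ,
    (∀ u ∈ Icc (p 0) (p (Fin.last m)), |Ph A B u| ≤ M) →
    ∑ j : Fin m, (|Ph A B (p j.castSucc) - (Fr A B (p j.succ) - Fr A B (p j.castSucc)) /
        (p j.succ - p j.castSucc)| +
      |Ph A B (p j.succ) - (Fr A B (p j.succ) - Fr A B (p j.castSucc)) /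
        (p j.succ - p j.castSucc)|) ≤ 4 * d * M

lemma rayBound {A B : ℝ[X]} {n : ℕ} (hA : A.natDegree ≤ n) (hB : B.natDegree ≤ n) :
    RayBound A B n := fun _ p hp hne _ hM => ray hA hB p hp hne hM

lemma Fr_X_mul (A B : ℝ[X]) (u : ℝ) : Fr (X * A) (X * B) u = Fr A B u := by
  unfold Fr
  simp only [eval_mul, eval_X]
  rw [mul_div_mul_left _ _ (Real.exp_pos u).ne']

lemma Ph_X_mul (A B : ℝ[X]) (u : ℝ) : Ph (X * A) (X * B) u = Ph A B u := by
  unfold Ph
  simp only [derivative_mul, derivative_X, one_mul, eval_add, eval_mul, eval_X]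
  have h := (Real.exp_pos u).ne'
  by_cases hB : B.eval (Real.exp u) = 0
  · rw [hB]; simp
  · field_simp
    ring

/-- the bound if both polynomials vanish at the origin -/
lemma rayBound_zero {A B : ℝ[X]} {n : ℕ} (hA : A.natDegree ≤ n) (hB : B.natDegree ≤ n)
    (hA0 : A.coeff 0 = 0) (hB0 : B.coeff 0 = 0) : RayBound A B (n - 1) := by
  have eA : X * A.divX = A := by
    have := X_mul_divX_add A
    rwa [hA0, map_zero, add_zero] at this
  have eB : X * B.divX = B := by
    have := X_mul_divX_add B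
    rwa [hB0, map_zero, add_zero] at this
  have hA' : A.divX.natDegree ≤ n - 1 := by rw [natDegree_divX_eq_natDegree_tsub_one]; omega
  have hB' : B.divX.natDegree ≤ n - 1 := by rw [natDegree_divX_eq_natDegree_tsub_one]; omega
  have h := rayBound hA' hB'
  have ePh : ∀ u, Ph A B u = Ph A.divX B.divX u := by
    intro u
    have := Ph_X_mul A.divX B.divX u
    rwa [eA, eB] at this
  have eFr : ∀ u, Fr A B u = Fr A.divX B.divX u := by
    intro u
    have := Fr_X_mul A.divX B.divX u
    rwa [eA, eB] at this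
  intro m p hp hne M hM
  simp only [ePh, eFr] at hM ⊢
  refine h m p hp (fun u hu h0 => hne u hu ?_) M hM
  rw [← eB, eval_mul, h0, mul_zero]

end

end Pool.Agent.TH234.PH
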